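import Pool.Agent.Q5.NS.Cover

/-!
The cover and Galois extensions.
-/

set_option autoImplicit false
set_option linter.all false

namespace Pool.Agent.Q5.NS

theorem exists_hom {G Γ X : Type*} [Group G] [Group Γ] [Group X] (π : Γ →* G) (θ : MulAut Γ →* G)
    (hπ : Function.Surjective π) (hθ : ∀ γ, θ (MulAut.conj γ) = π γ) (N : Subgroup X) [N.Normal]
    (e : Γ ≃* N) : ∃ f : X →* G, (∀ g, ∃ x ∈ N, f x = g) ∧ (∀ x, (∀ y ∈ N, x * y = y * x) → f x = 1) := by
  let c : X →* MulAut Γ := (MulAut.congr e.symm).toMonoidHom.comp MulAut.conjNormal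
  have hc : ∀ x γ, ((e (c x γ) : N) : X) = x * (e γ : X) * x⁻¹ := by
    intro x γ
    have : c x γ = e.symm (MulAut.conjNormal x (e γ)) := rfl
    rw [this, MulEquiv.apply_symm_apply, MulAut.conjNormal_apply]
  refine ⟨θ.comp c, ?_, ?_⟩
  · intro g
    obtain ⟨γ, rfl⟩ := hπ g
    refine ⟨e γ, (e γ).2, ?_⟩
    rw [MonoidHom.comp_apply, ← hθ]
    congr 1
    ext δ
    apply e.injective
    apply Subtype.ext
    rw [hc, MulAut.conj_apply, map_mul, map_mul, map_inv]
    rfl
  · intro x hx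
    rw [MonoidHom.comp_apply]
    have : c x = 1 := by
      ext δ
      apply e.injective
      apply Subtype.ext
      rw [hc, hx _ (e δ).2, mul_inv_cancel_right]
      rfl
    rw [this, map_one]

theorem closed_ker {K L G : Type*} [Field K] [Field L] [Algebra K L] [IsGalois K L] [Group G]
    (N : Subgroup (L ≃ₐ[K] L)) [N.Normal] [Finite N] (f : (L ≃ₐ[K] L) →* G)
    (hf : ∀ x, (∀ y ∈ N, x * y = y * x) → f x = 1) : IsClosed (f.ker : Set (L ≃ₐ[K] L)) := by
  let c : (L ≃ₐ[K] L) →* MulAut N := MulAut.conjNormal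
  have hc : ∀ x, x ∈ c.ker ↔ ∀ y ∈ N, x * y = y * x := by
    intro x
    rw [MonoidHom.mem_ker]
    constructor
    · intro h y hy
      have h1 := congrArg (fun φ : MulAut N => ((φ ⟨y, hy⟩ : N) : L ≃ₐ[K] L)) h
      simp only [c, MulAut.conjNormal_apply, MulAut.one_apply] at h1
      rw [mul_inv_eq_iff_eq_mul] at h1
      exact h1
    · intro h
      ext y : 1
      apply Subtype.ext
      simp only [c, MulAut.conjNormal_apply, MulAut.one_apply]
      rw [h _ y.2, mul_inv_cancel_right]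
  have hclosed : IsClosed (c.ker : Set (L ≃ₐ[K] L)) := by
    have : (c.ker : Set (L ≃ₐ[K] L)) = ⋂ y ∈ N, {x | x * y = y * x} := by
      ext x
      simp only [SetLike.mem_coe, hc, Set.mem_iInter, Set.mem_setOf_eq]
    rw [this]
    refine isClosed_biInter fun y _ => isClosed_eq ?_ ?_
    · exact continuous_id.mul continuous_const
    · exact continuous_const.mul continuous_id
  haveI : Finite (MulAut N) := inferInstance
  haveI : c.ker.FiniteIndex := inferInstance
  have hopen : IsOpen (c.ker : Set (L ≃ₐ[K] L)) :=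
    Subgroup.isOpen_of_isClosed_of_finiteIndex _ hclosed
  have hle : c.ker ≤ f.ker := by
    intro x hx
    rw [MonoidHom.mem_ker]
    exact hf x ((hc x).mp hx)
  have h2 : IsOpen (f.ker : Set (L ≃ₐ[K] L)) := Subgroup.isOpen_mono hle hopen
  exact Subgroup.isClosed_of_isOpen _ h2

theorem exists_field {K L G Γ : Type*} [Field K] [Field L] [Algebra K L] [IsGalois K L] [Group G]
    [Group Γ] [Finite Γ] (π : Γ →* G) (θ : MulAut Γ →* G)
    (hπ : Function.Surjective π) (hθ : ∀ γ, θ (MulAut.conj γ) = π γ)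
    (N : Subgroup (L ≃ₐ[K] L)) [N.Normal] (e : Γ ≃* N) :
    ∃ (M : IntermediateField K L) (_ : IsGalois K M), Nonempty (G ≃* (M ≃ₐ[K] M)) ∧
      Function.Surjective ((AlgEquiv.restrictNormalHom M : (L ≃ₐ[K] L) →* (M ≃ₐ[K] M)).comp
        N.subtype) := by
  obtain ⟨f, hf1, hf2⟩ := exists_hom π θ hπ hθ N e
  haveI : Finite N := Finite.of_equiv _ e.toEquiv
  have hcl := closed_ker N f hf2
  have hs : Function.Surjective f := fun g => by
    obtain ⟨x, -, hx⟩ := hf1 g
    exact ⟨x, hx⟩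
  let C : ClosedSubgroup (L ≃ₐ[K] L) := ⟨f.ker, hcl⟩
  haveI hCn : C.Normal := (inferInstance : f.ker.Normal)
  refine ⟨IntermediateField.fixedField f.ker, inferInstance, ⟨?_⟩, ?_⟩
  · exact (QuotientGroup.quotientKerEquivOfSurjective f hs).symm.trans
      (InfiniteGalois.normalAutEquivQuotient C)
  · intro σ
    obtain ⟨τ, rfl⟩ := AlgEquiv.restrictNormalHom_surjective (F := K)
      (K₁ := IntermediateField.fixedField f.ker) L σ
    obtain ⟨x, hx, hx1⟩ := hf1 (f τ)
    refine ⟨⟨x, hx⟩, ?_⟩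
    have h1 : τ⁻¹ * x ∈ f.ker := by
      rw [MonoidHom.mem_ker, map_mul, map_inv, hx1, inv_mul_cancel]
    have h2 : (τ⁻¹ * x) ∈ (AlgEquiv.restrictNormalHom (F := K) (K₁ := L)
        (IntermediateField.fixedField f.ker)).ker := by
      rw [IntermediateField.restrictNormalHom_ker]
      exact (IntermediateField.le_iff_le _ _).mp le_rfl h1
    rw [MonoidHom.mem_ker, map_mul, map_inv, inv_mul_eq_one] at h2
    exact h2.symm

end Pool.Agent.Q5.NS
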