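import Mathlib

set_option autoImplicit false
set_option linter.all false

namespace Pool.Agent.Q5.NS

/-- linear maps of `F_r[G]` which map every vector to a multiple of a translate -/
theorem lin_translate {G : Type*} [Group G] [Finite G] [DecidableEq G] {r : ℕ} [Fact r.Prime]
    (hr : 5 ≤ r)
    (F : (G → ZMod r) →ₗ[ZMod r] (G → ZMod r)) (hF : Function.Injective F)
    (hP : ∀ v : G → ZMod r, ∃ (n : ZMod r) (g : G), ∀ x, F v x = n * v (g⁻¹ * x)) :
    ∃ (n : ZMod r) (g : G), n ≠ 0 ∧ ∀ v x, F v x = n * v (g⁻¹ * x) := by
  classical
  haveI := Fintype.ofFinite G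
  have h3 : (3 : ZMod r) ≠ 0 := by
    intro h
    have h' : ((3 : ℕ) : ZMod r) = 0 := by exact_mod_cast h
    rw [ZMod.natCast_eq_zero_iff] at h'
    have := Nat.le_of_dvd (by norm_num) h'
    omega
  have h2 : (2 : ZMod r) ≠ 0 := by
    intro h
    have h' : ((2 : ℕ) : ZMod r) = 0 := by exact_mod_cast h
    rw [ZMod.natCast_eq_zero_iff] at h'
    have := Nat.le_of_dvd (by norm_num) h'
    omega
  -- images of the basis vectors
  have hs : ∀ x : G, ∃ (n : ZMod r) (y : G), n ≠ 0 ∧ F (Pi.single x 1) = Pi.single y n := by
    intro x
    obtain ⟨n, g, h⟩ := hP (Pi.single x 1)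
    refine ⟨n, g * x, ?_, ?_⟩
    · rintro rfl
      have h0 : F (Pi.single x 1) = 0 := by
        funext z
        rw [h z, zero_mul]
        rfl
      rw [← map_zero F] at h0
      have := congrFun (hF h0) x
      rw [Pi.single_eq_same] at this
      exact one_ne_zero this
    · funext z
      rw [h z]
      by_cases hz : z = g * x
      · subst hz
        rw [inv_mul_cancel_left, Pi.single_eq_same, Pi.single_eq_same, mul_one]
      · rw [Pi.single_eq_of_ne hz, Pi.single_eq_of_ne, mul_zero]
        intro h1
        exact hz (by rw [← h1, mul_inv_cancel_left])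
  obtain ⟨n1, g1, hn1, h1⟩ := hs 1
  have key : ∀ x : G, F (Pi.single x 1) = Pi.single (g1 * x) n1 := by
    intro x
    by_cases hx : x = 1
    · subst hx
      rw [mul_one, h1]
    obtain ⟨nx, y, hnx, h⟩ := hs x
    have hy : g1 ≠ y := by
      rintro rfl
      have h0 : F (nx • Pi.single 1 1 - n1 • Pi.single x 1) = F 0 := by
        rw [map_sub, map_smul, map_smul, h1, h, map_zero]
        funext z
        by_cases hz : z = g1
        · subst hz
          simp [mul_comm]
        · simp [hz]
      have := congrFun (hF h0) 1
      simp [Ne.symm hx] at this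
      exact hnx this
    -- the value at combinations
    have comb : ∀ a : ZMod r, a ≠ 0 → (nx = n1 ∧ y = g1 * x) ∨ (n1 = a * a * nx) := by
      intro a ha
      obtain ⟨n, g, hg⟩ := hP (Pi.single 1 1 + a • Pi.single x 1)
      have e1 := hg g1
      have e2 := hg y
      rw [map_add, map_smul, h1, h] at e1 e2
      have hne : g ≠ g * x := by
        intro h5
        exact hx (by simpa using h5.symm)
      simp only [Pi.add_apply, Pi.smul_apply, Pi.single_apply, smul_eq_mul, if_pos rfl] at e1 e2
      simp only [if_neg hy, if_neg (Ne.symm hy), mul_zero, add_zero, zero_add] at e1 e2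
      have c1 : ∀ z : G, (g⁻¹ * z = 1) ↔ z = g := by
        intro z
        rw [inv_mul_eq_one, eq_comm]
      have c2 : ∀ z : G, (g⁻¹ * z = x) ↔ z = g * x := by
        intro z
        rw [inv_mul_eq_iff_eq_mul]
      simp only [c1, c2] at e1 e2
      by_cases k1 : g1 = g
      · have k2 : y ≠ g := fun h5 => hy (by rw [k1, h5])
        have k3 : g1 ≠ g * x := by rw [k1]; exact hne
        rw [if_pos k1, if_neg k3] at e1
        rw [if_neg k2] at e2
        by_cases k4 : y = g * x
        · rw [if_pos k4] at e2
          left
          refine ⟨?_, by rw [k4, k1]⟩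
          have : n = n1 := by simpa using e1.symm
          rw [this] at e2
          have h6 : a * (nx - n1) = 0 := by
            have : a * nx = n1 * a := by simpa using e2
            rw [mul_sub, this]
            ring
          rcases mul_eq_zero.mp h6 with h7 | h7
          · exact absurd h7 ha
          · exact sub_eq_zero.mp h7
        · rw [if_neg k4] at e2
          exfalso
          have h6 : a * nx = 0 := by simpa using e2
          rcases mul_eq_zero.mp h6 with h7 | h7
          · exact ha h7
          · exact hnx h7
      · rw [if_neg k1] at e1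
        by_cases k3 : g1 = g * x
        · rw [if_pos k3] at e1
          have k4 : y ≠ g * x := fun h5 => hy (by rw [k3, h5])
          rw [if_neg k4] at e2
          by_cases k2 : y = g
          · rw [if_pos k2] at e2
            right
            have e1' : n1 = n * a := by simpa using e1
            have e2' : a * nx = n := by simpa using e2
            rw [e1', ← e2']
            ring
          · rw [if_neg k2] at e2
            exfalso
            have h6 : a * nx = 0 := by simpa using e2
            rcases mul_eq_zero.mp h6 with h7 | h7
            · exact ha h7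
            · exact hnx h7
        · rw [if_neg k3] at e1
          exfalso
          exact hn1 (by simpa using e1)
    rcases comb 1 one_ne_zero with ⟨p1, p2⟩ | p3
    · rw [h, p1, p2]
    · rcases comb 2 h2 with ⟨p1, p2⟩ | p4
      · rw [h, p1, p2]
      · exfalso
        have h5 : (3 : ZMod r) * nx = 0 := by
          have : n1 = nx := by rw [p3]; ring
          have h6 : 2 * 2 * nx = nx := by rw [← p4, this]
          have h7 : (3 : ZMod r) * nx = 2 * 2 * nx - nx := by ring
          rw [h7, h6, sub_self]
        rcases mul_eq_zero.mp h5 with h7 | h7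
        · exact h3 h7
        · exact hnx h7
  refine ⟨n1, g1, hn1, ?_⟩
  have hlin : F = n1 • LinearMap.funLeft (ZMod r) (ZMod r) (fun x : G => g1⁻¹ * x) := by
    apply LinearMap.pi_ext'
    intro x
    apply LinearMap.ext_ring
    simp only [LinearMap.comp_apply, LinearMap.coe_single, LinearMap.smul_apply]
    rw [key x]
    funext z
    rw [Pi.smul_apply, LinearMap.funLeft_apply, smul_eq_mul]
    by_cases hz : z = g1 * x
    · subst hz
      rw [inv_mul_cancel_left, Pi.single_eq_same, Pi.single_eq_same, mul_one]
    · rw [Pi.single_eq_of_ne hz, Pi.single_eq_of_ne, mul_zero]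
      intro h5
      exact hz (by rw [← h5, mul_inv_cancel_left])
  intro v x
  rw [hlin]
  rfl

end Pool.Agent.Q5.NS
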