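import Pool.Agent.Q5.NS.Fix
import Pool.Agent.Q5.NS.Lin

/-!
For every finite group `G` there is a finite group `Γ` with an epimorphism `π : Γ → G` and a
homomorphism `θ : Aut Γ → G` such that `θ` of the conjugation by `γ` is `π γ`.
-/

set_option autoImplicit false
set_option linter.all false
open SemidirectProduct

namespace Pool.Agent.Q5.NS

section
variable (G : Type*) [Group G] (r : ℕ)

/-- the group of functions `G → Z/r` -/
abbrev Wd := G → Multiplicative (ZMod r)

/-- the wreath product `Z/r ≀ G` -/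
abbrev Wr := Wd G r ⋊[mulAutArrow] G

/-- the cosets of the cyclic group generated by `v` -/
abbrev Om (v : Wd G r) := Wr G r ⧸ Subgroup.zpowers (inl v : Wr G r)

variable {G r}

theorem conj_inl (k : Wr G r) (w : Wd G r) :
    k * inl w * k⁻¹ = inl (mulAutArrow k.right w) := by
  ext
  · simp only [mul_left, left_inl, mul_right, right_inl, mul_one, inv_left]
    have h3 : (mulAutArrow k.right) ((mulAutArrow k.right⁻¹) k.left⁻¹) = k.left⁻¹ := by
      rw [← MulAut.mul_apply, ← map_mul, mul_inv_cancel, map_one, MulAut.one_apply]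
    rw [h3, mul_comm, inv_mul_cancel_left]
  · simp

theorem fixed_iff (v : Wd G r) (h : Wr G r) (x : Om G r v) (hx : h • x = x) :
    ∃ (n : ℤ) (g : G), h = inl (mulAutArrow g (v ^ n)) := by
  induction x using QuotientGroup.induction_on with
  | H k =>
    have h1 : (((h * k : Wr G r)) : Om G r v) = (k : Om G r v) := hx
    rw [QuotientGroup.eq, Subgroup.mem_zpowers_iff] at h1
    obtain ⟨n, hn⟩ := h1
    have h2 : h = k * (inl v) ^ (-n) * k⁻¹ := by
      rw [zpow_neg, hn]
      group
    rw [← map_zpow, conj_inl] at h2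
    exact ⟨-n, k.right, h2⟩

end

section
variable {G : Type*} [Group G] [Finite G] [DecidableEq G] {r : ℕ} [Fact r.Prime]
  [DecidableEq (Wd G r)] {ℓ : Wd G r → ℕ}

instance finWr : Finite (Wr G r) := Finite.of_equiv _ (SemidirectProduct.equivProd).symm

instance (v : Wd G r) : Finite (Om G r v) := Quotient.finite _

theorem card_Om (v : Wd G r) : Nat.card (Om G r v) ≤ Nat.card (Wr G r) :=
  Nat.card_le_card_of_surjective (QuotientGroup.mk : Wr G r → Om G r v) QuotientGroup.mk_surjective

variable (hℓ : ∀ i, (ℓ i).Prime) (hinj : Function.Injective ℓ)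
  (hbig : ∀ i, Nat.card (Wr G r) < ℓ i)

include hℓ hbig in
theorem hH : ∀ i, ¬ ℓ i ∣ Nat.card (Wr G r) := by
  intro i h
  have := Nat.le_of_dvd Nat.card_pos h
  have := hbig i
  omega

theorem card_eq_of {p a b : ℕ} (ha : a < p) (hb : b < p) (h : (a : ZMod p) = (b : ZMod p)) :
    a = b := by
  rw [ZMod.natCast_eq_natCast_iff] at h
  exact Nat.ModEq.eq_of_lt_of_lt h ha hb

include hℓ hinj hbig in
theorem fix_card' (β : MulAut (Gam (H := Wr G r) (Om G r) ℓ)) (v : Wd G r) (h : Wr G r) :
    Nat.card {x : Om G r v // bar β h • x = x} = Nat.card {x : Om G r v // h • x = x} := by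
  have h1 := fix_card hℓ (hH hℓ hbig) hinj β v h
  refine card_eq_of ?_ ?_ h1
  · exact lt_of_le_of_lt (Finite.card_subtype_le _) (lt_of_le_of_lt (card_Om v) (hbig v))
  · exact lt_of_le_of_lt (Finite.card_subtype_le _) (lt_of_le_of_lt (card_Om v) (hbig v))

include hℓ hinj hbig in
theorem bar_inl (β : MulAut (Gam (H := Wr G r) (Om G r) ℓ)) (v : Wd G r) :
    ∃ (n : ℤ) (g : G), bar β (inl v) = inl (mulAutArrow g (v ^ n)) := by
  have h := fix_card' hℓ hinj hbig β v (inl v)
  have h1 : 0 < Nat.card {x : Om G r v // (inl v : Wr G r) • x = x} := by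
    haveI : Nonempty {x : Om G r v // (inl v : Wr G r) • x = x} :=
      ⟨⟨((1 : Wr G r) : Om G r v), by
        have : (((inl v * 1 : Wr G r)) : Om G r v) = ((1 : Wr G r) : Om G r v) := by
          rw [QuotientGroup.eq]
          refine Subgroup.mem_zpowers_iff.mpr ⟨-1, ?_⟩
          group
        exact this⟩⟩
    exact Nat.card_pos
  rw [← h] at h1
  obtain ⟨⟨x, hx⟩⟩ := (Nat.card_pos_iff.mp h1).1
  exact fixed_iff v _ x hx

include hℓ hinj hbig in
theorem bar_injective (β : MulAut (Gam (H := Wr G r) (Om G r) ℓ)) :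
    Function.Injective (bar β) := by
  rw [injective_iff_map_eq_one]
  intro h hh
  have h1 := fix_card' hℓ hinj hbig β 1 h
  rw [hh] at h1
  have h2 : Nat.card {x : Om G r 1 // (1 : Wr G r) • x = x} = Nat.card (Om G r 1) := by
    refine Nat.card_congr ⟨Subtype.val, fun x => ⟨x, one_smul _ _⟩, fun _ => rfl, fun _ => rfl⟩
  rw [h2] at h1
  have h3 : Function.Surjective (Subtype.val : {x : Om G r 1 // h • x = x} → Om G r 1) := by
    have : Function.Injective (Subtype.val : {x : Om G r 1 // h • x = x} → Om G r 1) :=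
      Subtype.val_injective
    exact (Function.Injective.bijective_of_nat_card_le this (le_of_eq h1)).2
  obtain ⟨⟨x, hx⟩, hx1⟩ := h3 ((1 : Wr G r) : Om G r 1)
  simp only at hx1
  subst hx1
  have h4 : (((h * 1 : Wr G r)) : Om G r 1) = ((1 : Wr G r) : Om G r 1) := hx
  rw [QuotientGroup.eq, map_one, Subgroup.zpowers_one_eq_bot, Subgroup.mem_bot] at h4
  simpa using h4

/-- the relation between an automorphism and its image in `G` -/
def Rel (β : MulAut (Gam (H := Wr G r) (Om G r) ℓ)) (g : G) : Prop :=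
  ∃ n : ZMod r, n ≠ 0 ∧ ∀ (v : Wd G r), (bar β (inl v)).right = 1 ∧ ∀ x : G,
    Multiplicative.toAdd ((bar β (inl v)).left x) = n * Multiplicative.toAdd (v (g⁻¹ * x))

include hℓ hinj hbig in
theorem exists_rel (hr : 5 ≤ r) (β : MulAut (Gam (H := Wr G r) (Om G r) ℓ)) :
    ∃ g, Rel β g := by
  have hri : ∀ v : Wd G r, bar β (inl v) = inl (bar β (inl v)).left := by
    intro v
    obtain ⟨n, g, h⟩ := bar_inl hℓ hinj hbig β v
    rw [h, left_inl]
  let F0 : (G → ZMod r) →+ (G → ZMod r) := AddMonoidHom.mk' (fun f => fun x =>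
    Multiplicative.toAdd ((bar β (inl (fun y => Multiplicative.ofAdd (f y)))).left x)) (by
      intro a b
      funext x
      have h1 : (fun y => Multiplicative.ofAdd ((a + b) y)) =
        (fun y => Multiplicative.ofAdd (a y)) * (fun y => Multiplicative.ofAdd (b y)) := rfl
      rw [h1, map_mul, map_mul, mul_left]
      rw [hri (fun y => Multiplicative.ofAdd (a y)), hri (fun y => Multiplicative.ofAdd (b y))]
      simp only [left_inl, right_inl, map_one, MulAut.one_apply]
      rfl)
  let F := AddMonoidHom.toZModLinearMap r F0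
  have hFa : ∀ f x, F f x =
    Multiplicative.toAdd ((bar β (inl (fun y => Multiplicative.ofAdd (f y)))).left x) :=
    fun _ _ => rfl
  have hF : Function.Injective F := by
    intro a b h
    have h1 : bar β (inl (fun y => Multiplicative.ofAdd (a y))) =
        bar β (inl (fun y => Multiplicative.ofAdd (b y))) := by
      refine (hri _).trans ((congrArg inl ?_).trans (hri _).symm)
      funext x
      have := congrFun h x
      rw [hFa, hFa] at this
      exact Multiplicative.toAdd.injective this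
    have h2 := inl_injective (bar_injective hℓ hinj hbig β h1)
    funext x
    exact Multiplicative.ofAdd.injective (congrFun h2 x)
  obtain ⟨n, g, hn, h⟩ := lin_translate hr F hF (by
    intro v
    obtain ⟨n, g, h⟩ := bar_inl hℓ hinj hbig β (fun y => Multiplicative.ofAdd (v y))
    refine ⟨(n : ZMod r), g, fun x => ?_⟩
    rw [hFa, h, left_inl]
    have : mulAutArrow g ((fun y => Multiplicative.ofAdd (v y)) ^ n : Wd G r) x =
      (Multiplicative.ofAdd (v (g⁻¹ * x))) ^ n := rfl
    rw [this, toAdd_zpow, toAdd_ofAdd, zsmul_eq_mul])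
  refine ⟨g, n, hn, fun v => ⟨by rw [hri v, right_inl], fun x => ?_⟩⟩
  have := h (fun y => Multiplicative.toAdd (v y)) x
  rw [hFa] at this
  exact this

omit [Finite G] [DecidableEq (Wd G r)] in
theorem rel_unique (β : MulAut (Gam (H := Wr G r) (Om G r) ℓ)) (g g' : G) (h : Rel β g)
    (h' : Rel β g') : g = g' := by
  obtain ⟨n, hn, h⟩ := h
  obtain ⟨n', hn', h'⟩ := h'
  have h1 := (h (Pi.mulSingle 1 (Multiplicative.ofAdd 1))).2 g
  rw [(h' (Pi.mulSingle 1 (Multiplicative.ofAdd 1))).2 g, inv_mul_cancel, Pi.mulSingle_eq_same,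
    toAdd_ofAdd, mul_one] at h1
  by_contra hne
  have h2 : g'⁻¹ * g ≠ 1 := by
    intro h3
    exact hne (inv_mul_eq_one.mp h3).symm
  rw [Pi.mulSingle_eq_of_ne h2, toAdd_one, mul_zero] at h1
  exact hn h1.symm

include hℓ hbig in
theorem rel_mul (β β' : MulAut (Gam (H := Wr G r) (Om G r) ℓ)) (g g' : G) (h : Rel β g)
    (h' : Rel β' g') : Rel (β * β') (g * g') := by
  obtain ⟨n, hn, h⟩ := h
  obtain ⟨n', hn', h'⟩ := h'
  refine ⟨n * n', mul_ne_zero hn hn', fun v => ?_⟩
  have hb : bar (β * β') (inl v) = bar β (inl (bar β' (inl v)).left) := by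
    rw [bar_mul hℓ (hH hℓ hbig), MonoidHom.comp_apply]
    congr 1
    ext
    · rw [left_inl]
    · rw [(h' v).1, right_inl]
  rw [hb]
  refine ⟨(h _).1, fun x => ?_⟩
  rw [(h _).2, (h' v).2, mul_inv_rev, mul_assoc, mul_assoc]

omit [Finite G] [DecidableEq (Wd G r)] [DecidableEq G] in
theorem rel_conj (γ : Gam (H := Wr G r) (Om G r) ℓ) : Rel (MulAut.conj γ) γ.right.right := by
  refine ⟨1, one_ne_zero, fun v => ?_⟩
  rw [bar_conj, conj_inl]
  refine ⟨right_inl _, fun x => ?_⟩
  rw [left_inl, one_mul]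
  rfl

end

/-- the cover of a finite group -/
theorem exists_cover.{u} (G : Type u) [Group G] [Finite G] (M : ℕ) :
    ∃ (Γ : Type u) (_ : Group Γ) (π : Γ →* G) (θ : MulAut Γ →* G), Finite Γ ∧
      Function.Surjective π ∧ (∀ γ, θ (MulAut.conj γ) = π γ) ∧
      (∀ p : ℕ, p.Prime → p ∣ Nat.card Γ → p ∣ Nat.card G ∨ M < p) := by
  classical
  obtain ⟨r, hrM, hr⟩ := Nat.exists_infinite_primes (M + 5)
  haveI := Fact.mk hr
  -- the primes
  have hinf : (setOf fun p : ℕ => p.Prime ∧ Nat.card (Wr G r) + M < p).Infinite := by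
    have h1 : {p : ℕ | p.Prime}.Infinite := Nat.infinite_setOf_prime
    have h2 : {p : ℕ | ¬ (Nat.card (Wr G r) + M < p)}.Finite := by
      refine (Set.finite_Iic (Nat.card (Wr G r) + M)).subset ?_
      intro p hp
      simpa using hp
    refine (h1.diff h2).mono ?_
    intro p hp
    refine ⟨hp.1, ?_⟩
    have := hp.2
    simpa using this
  haveI := hinf.to_subtype
  haveI : Finite (Wd G r) := Pi.finite
  let f : Wd G r ↪ setOf fun p : ℕ => p.Prime ∧ Nat.card (Wr G r) + M < p :=
    ((Finite.equivFin (Wd G r)).toEmbedding.trans Fin.valEmbedding).trans (Infinite.natEmbedding _)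
  let ℓ : Wd G r → ℕ := fun v => (f v : ℕ)
  have hℓ : ∀ i, (ℓ i).Prime := fun i => (f i).2.1
  have hinj : Function.Injective ℓ := fun a b h => f.injective (Subtype.ext h)
  have hbig : ∀ i, Nat.card (Wr G r) < ℓ i := fun i => by
    have := (f i).2.2
    exact lt_of_le_of_lt (Nat.le_add_right _ _) this
  have hbigM : ∀ i, M < ℓ i := fun i => by
    have := (f i).2.2
    exact lt_of_le_of_lt (Nat.le_add_left _ _) this
  choose θ hθ using exists_rel (G := G) hℓ hinj hbig (by omega)
  haveI : ∀ i, NeZero (ℓ i) := fun i => ⟨(hℓ i).ne_zero⟩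
  haveI : Finite (Mod (Om G r) ℓ) := Pi.finite
  have hfin : Finite (Gam (H := Wr G r) (Om G r) ℓ) :=
    Finite.of_equiv _ (SemidirectProduct.equivProd).symm
  refine ⟨Gam (H := Wr G r) (Om G r) ℓ, inferInstance, rightHom.comp rightHom,
    MonoidHom.mk' θ ?_, hfin, ?_, ?_, ?_⟩
  · intro β β'
    exact rel_unique (β * β') _ _ (hθ _) (rel_mul hℓ hbig β β' _ _ (hθ β) (hθ β'))
  · exact (rightHom_surjective).comp rightHom_surjective
  · intro γ
    exact rel_unique (MulAut.conj γ) _ _ (hθ _) (rel_conj γ)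
  · intro p hp hd
    rw [SemidirectProduct.card, SemidirectProduct.card] at hd
    rcases (Nat.Prime.dvd_mul hp).mp hd with hd | hd
    · right
      haveI := Fintype.ofFinite (Wd G r)
      rw [Nat.card_pi] at hd
      obtain ⟨i, -, hi⟩ := (Prime.dvd_finset_prod_iff hp.prime _).mp hd
      haveI := Fintype.ofFinite (Om G r i)
      rw [Nat.card_pi] at hi
      obtain ⟨x, -, hx⟩ := (Prime.dvd_finset_prod_iff hp.prime _).mp hi
      have h1 : Nat.card (Multiplicative (ZMod (ℓ i))) = ℓ i := by
        rw [Nat.card_congr Multiplicative.toAdd, Nat.card_zmod]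
      rw [h1] at hx
      rw [(Nat.prime_dvd_prime_iff_eq hp (hℓ i)).mp hx]
      exact hbigM i
    · rcases (Nat.Prime.dvd_mul hp).mp hd with hd | hd
      · right
        haveI := Fintype.ofFinite G
        rw [Nat.card_pi] at hd
        obtain ⟨x, -, hx⟩ := (Prime.dvd_finset_prod_iff hp.prime _).mp hd
        have h1 : Nat.card (Multiplicative (ZMod r)) = r := by
          rw [Nat.card_congr Multiplicative.toAdd, Nat.card_zmod]
        rw [h1] at hx
        rw [(Nat.prime_dvd_prime_iff_eq hp hr).mp hx]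
        omega
      · exact Or.inl hd

end Pool.Agent.Q5.NS
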