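import Pool.Agent.Q5.NS.Mod

set_option autoImplicit false
set_option linter.all false
open SemidirectProduct

namespace Pool.Agent.Q5.NS

section trace
variable {p : ℕ} [Fact p.Prime] {X : Type*} [Finite X]

/-- the linear map of functions induced by a permutation has as trace the number of fixed points -/
theorem trace_perm (e : X → X) :
    LinearMap.trace (ZMod p) (X → ZMod p) (LinearMap.funLeft (ZMod p) (ZMod p) e) =
      ((Nat.card {x : X // e x = x} : ℕ) : ZMod p) := by
  classical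
  haveI := Fintype.ofFinite X
  rw [LinearMap.trace_eq_matrix_trace (ZMod p) (Pi.basisFun (ZMod p) X), Matrix.trace]
  have h : ∀ x : X, (LinearMap.toMatrix (Pi.basisFun (ZMod p) X) (Pi.basisFun (ZMod p) X)
      (LinearMap.funLeft (ZMod p) (ZMod p) e)).diag x = if e x = x then 1 else 0 := by
    intro x
    rw [Matrix.diag_apply, LinearMap.toMatrix_apply]
    simp [LinearMap.funLeft_apply, Pi.single_apply]
  rw [Finset.sum_congr rfl fun x _ => h x, Finset.sum_boole, Nat.card_eq_fintype_card,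
    Fintype.card_subtype]

end trace

section
variable {H : Type*} [Group H] {ι : Type*} {Ω : ι → Type*} [∀ i, MulAction H (Ω i)] {ℓ : ι → ℕ}
  [Finite H] [Finite ι] [DecidableEq ι]

/-- the component as a linear map -/
def lin (hℓ : ∀ i, (ℓ i).Prime) (hH : ∀ i, ¬ ℓ i ∣ Nat.card H) (hinj : Function.Injective ℓ)
    (β : MulAut (Gam (H := H) Ω ℓ)) (i : ι) :
    (Ω i → ZMod (ℓ i)) →ₗ[ZMod (ℓ i)] (Ω i → ZMod (ℓ i)) :=
  AddMonoidHom.toZModLinearMap (ℓ i) (AddMonoidHom.mk' (fun f => fun x =>
    Multiplicative.toAdd (B β i (fun y => Multiplicative.ofAdd (f y)) x)) (by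
      intro f g
      funext x
      have := congrFun (B_mul hℓ hH hinj β i (fun y => Multiplicative.ofAdd (f y))
        (fun y => Multiplicative.ofAdd (g y))) x
      exact congrArg Multiplicative.toAdd this))

theorem lin_apply (hℓ : ∀ i, (ℓ i).Prime) (hH : ∀ i, ¬ ℓ i ∣ Nat.card H)
    (hinj : Function.Injective ℓ) (β : MulAut (Gam (H := H) Ω ℓ)) (i : ι)
    (f : Ω i → ZMod (ℓ i)) (x : Ω i) : lin hℓ hH hinj β i f x =
      Multiplicative.toAdd (B β i (fun y => Multiplicative.ofAdd (f y)) x) := rfl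

theorem lin_inj (hℓ : ∀ i, (ℓ i).Prime) (hH : ∀ i, ¬ ℓ i ∣ Nat.card H)
    (hinj : Function.Injective ℓ) (β : MulAut (Gam (H := H) Ω ℓ)) (i : ι) :
    Function.Injective (lin hℓ hH hinj β i) := by
  intro f g h
  have h1 : B β i (fun y => Multiplicative.ofAdd (f y)) =
      B β i (fun y => Multiplicative.ofAdd (g y)) := by
    funext x
    have := congrFun h x
    rw [lin_apply, lin_apply] at this
    exact Multiplicative.toAdd.injective this
  have h2 := B_inj hℓ hH hinj β i h1
  funext x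
  exact Multiplicative.ofAdd.injective (congrFun h2 x)

/-- the numbers of fixed points are preserved modulo `ℓ i` -/
theorem fix_card [∀ i, Finite (Ω i)] (hℓ : ∀ i, (ℓ i).Prime) (hH : ∀ i, ¬ ℓ i ∣ Nat.card H)
    (hinj : Function.Injective ℓ) (β : MulAut (Gam (H := H) Ω ℓ)) (i : ι) (h : H) :
    ((Nat.card {x : Ω i // bar β h • x = x} : ℕ) : ZMod (ℓ i)) =
      ((Nat.card {x : Ω i // h • x = x} : ℕ) : ZMod (ℓ i)) := by
  haveI := Fact.mk (hℓ i)
  have hc : ∀ k : H, Nat.card {x : Ω i // k • x = x} = Nat.card {x : Ω i // k⁻¹ • x = x} := by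
    intro k
    refine Nat.card_congr (Equiv.subtypeEquivRight fun x => ?_)
    constructor
    · intro h1
      rw [inv_smul_eq_iff, h1]
    · intro h1
      rw [inv_smul_eq_iff] at h1
      exact h1.symm
  rw [hc, hc h, ← trace_perm, ← trace_perm]
  have hinj2 := lin_inj hℓ hH hinj β i
  let e : (Ω i → ZMod (ℓ i)) ≃ₗ[ZMod (ℓ i)] (Ω i → ZMod (ℓ i)) :=
    LinearEquiv.ofBijective (lin hℓ hH hinj β i) (Finite.injective_iff_bijective.mp hinj2)
  have he : LinearMap.funLeft (ZMod (ℓ i)) (ZMod (ℓ i)) (fun x : Ω i => (bar β h)⁻¹ • x) =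
      e.conj (LinearMap.funLeft (ZMod (ℓ i)) (ZMod (ℓ i)) (fun x : Ω i => h⁻¹ • x)) := by
    apply LinearMap.ext
    intro f
    obtain ⟨g, rfl⟩ := e.surjective f
    rw [LinearEquiv.conj_apply_apply, LinearEquiv.symm_apply_apply]
    funext x
    have h1 := B_act hℓ hH hinj β i h (fun y => Multiplicative.ofAdd (g y)) x
    exact (congrArg Multiplicative.toAdd h1).symm
  rw [he, LinearMap.trace_conj']

end

end Pool.Agent.Q5.NS
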