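import Mathlib

/-!
Automorphisms of `(∏ i, F_(ℓ i)[Ω i]) ⋊ H`, the `ℓ i` distinct primes not dividing the order of `H`,
induce endomorphisms of `H` which preserve the numbers of fixed points on the `Ω i` modulo `ℓ i`.
-/

set_option autoImplicit false
set_option linter.all false
open SemidirectProduct

namespace Pool.Agent.Q5.NS

section
variable {H : Type*} [Group H] {ι : Type*} (Ω : ι → Type*) [∀ i, MulAction H (Ω i)] (ℓ : ι → ℕ)

/-- the direct product of the permutation modules `F_(ℓ i) [Ω i]`, written multiplicatively -/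
abbrev Mod := ∀ i, Ω i → Multiplicative (ZMod (ℓ i))

/-- the action of `H` on the product of the permutation modules -/
def act : H →* MulAut (Mod Ω ℓ) where
  toFun h := MulEquiv.piCongrRight fun i =>
    (mulAutArrow (G := H) (A := Ω i) (M := Multiplicative (ZMod (ℓ i))) h)
  map_one' := by
    ext f i x
    simp
  map_mul' g h := by
    ext f i x
    simp [mul_smul]

theorem act_apply (h : H) (f : Mod Ω ℓ) (i : ι) (x : Ω i) : act Ω ℓ h f i x = f i (h⁻¹ • x) := rfl

/-- the semidirect product of the permutation modules and `H` -/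
abbrev Gam := Mod Ω ℓ ⋊[act Ω ℓ] H

variable {Ω ℓ}

/-- the endomorphism of `H` induced by an automorphism -/
def bar (β : MulAut (Gam (H := H) Ω ℓ)) : H →* H := rightHom.comp (β.toMonoidHom.comp inr)

theorem bar_apply (β : MulAut (Gam (H := H) Ω ℓ)) (h : H) : bar β h = (β (inr h)).right := rfl

variable [Finite H] [Finite ι]

theorem exp_mod (hℓ : ∀ i, (ℓ i).Prime) (a : Mod Ω ℓ) : a ^ (∏ᶠ i, ℓ i) = 1 := by
  funext i
  funext x
  haveI := Fact.mk (hℓ i)
  have hd : ℓ i ∣ ∏ᶠ i, ℓ i := by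
    haveI := Fintype.ofFinite ι
    rw [finprod_eq_prod_of_fintype]
    exact Finset.dvd_prod_of_mem _ (Finset.mem_univ i)
  obtain ⟨k, hk⟩ := hd
  rw [Pi.pow_apply, Pi.pow_apply, hk, pow_mul]
  have : (a i x) ^ ℓ i = 1 := by
    have h1 : (ℓ i) • (Multiplicative.toAdd (a i x)) = 0 := by
      rw [nsmul_eq_mul, CharP.cast_eq_zero, zero_mul]
    exact h1
  rw [this, one_pow]
  rfl

omit [Finite ι] in
theorem right_eq_one {n : ℕ} (hn : n.Coprime (Nat.card H)) {γ : Gam (H := H) Ω ℓ}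
    (h : γ ^ n = 1) : γ.right = 1 := by
  have h1 : γ.right ^ n = 1 := by
    have := congrArg (rightHom : Gam (H := H) Ω ℓ →* H) h
    rwa [map_pow, map_one] at this
  have h2 : orderOf γ.right ∣ n := orderOf_dvd_of_pow_eq_one h1
  have h3 : orderOf γ.right ∣ Nat.card H := orderOf_dvd_natCard _
  have h4 := Nat.dvd_gcd h2 h3
  rw [Nat.Coprime] at hn
  rw [hn] at h4
  exact orderOf_eq_one_iff.mp (Nat.dvd_one.mp h4)

theorem cop (hℓ : ∀ i, (ℓ i).Prime) (hH : ∀ i, ¬ ℓ i ∣ Nat.card H) :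
    (∏ᶠ i, ℓ i).Coprime (Nat.card H) := by
  haveI := Fintype.ofFinite ι
  rw [finprod_eq_prod_of_fintype]
  exact Nat.Coprime.prod_left fun i _ => (Nat.Prime.coprime_iff_not_dvd (hℓ i)).2 (hH i)

theorem inl_right (hℓ : ∀ i, (ℓ i).Prime) (hH : ∀ i, ¬ ℓ i ∣ Nat.card H)
    (β : MulAut (Gam (H := H) Ω ℓ)) (a : Mod Ω ℓ) : (β (inl a)).right = 1 := by
  refine right_eq_one (cop hℓ hH) ?_
  rw [← map_pow, ← map_pow, exp_mod hℓ, map_one, map_one]

theorem inl_eq (hℓ : ∀ i, (ℓ i).Prime) (hH : ∀ i, ¬ ℓ i ∣ Nat.card H)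
    (β : MulAut (Gam (H := H) Ω ℓ)) (a : Mod Ω ℓ) : β (inl a) = inl (β (inl a)).left := by
  ext
  · rw [left_inl]
  · rw [inl_right hℓ hH, right_inl]

theorem bar_mul (hℓ : ∀ i, (ℓ i).Prime) (hH : ∀ i, ¬ ℓ i ∣ Nat.card H)
    (β β' : MulAut (Gam (H := H) Ω ℓ)) : bar (β * β') = (bar β).comp (bar β') := by
  ext h
  rw [MonoidHom.comp_apply, bar_apply, bar_apply β, bar_apply β', MulAut.mul_apply]
  conv_lhs => rw [← inl_left_mul_inr_right (β' (inr h)), map_mul, mul_right, inl_right hℓ hH, one_mul]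

omit [Finite H] [Finite ι] in
theorem bar_conj (γ : Gam (H := H) Ω ℓ) (h : H) :
    bar (MulAut.conj γ) h = γ.right * h * γ.right⁻¹ := by
  rw [bar_apply, MulAut.conj_apply, mul_right, mul_right, right_inr, inv_right]

section comp
variable [DecidableEq ι]

/-- the components of the automorphism -/
def B (β : MulAut (Gam (H := H) Ω ℓ)) (i : ι) (b : Ω i → Multiplicative (ZMod (ℓ i))) :
    Ω i → Multiplicative (ZMod (ℓ i)) := (β (inl (Pi.mulSingle i b))).left i

theorem single_pow (hℓ : ∀ i, (ℓ i).Prime) (i : ι) (b : Ω i → Multiplicative (ZMod (ℓ i))) :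
    b ^ ℓ i = 1 := by
  haveI := Fact.mk (hℓ i)
  funext x
  rw [Pi.pow_apply]
  have h1 : (ℓ i) • (Multiplicative.toAdd (b x)) = 0 := by
    rw [nsmul_eq_mul, CharP.cast_eq_zero, zero_mul]
  exact h1

theorem B_eq (hℓ : ∀ i, (ℓ i).Prime) (hH : ∀ i, ¬ ℓ i ∣ Nat.card H) (hinj : Function.Injective ℓ)
    (β : MulAut (Gam (H := H) Ω ℓ)) (i : ι) (b : Ω i → Multiplicative (ZMod (ℓ i))) :
    β (inl (Pi.mulSingle i b)) = inl (Pi.mulSingle i (B β i b)) := by
  have h1 := inl_eq hℓ hH β (Pi.mulSingle i b)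
  rw [h1]
  congr 1
  have h2 : (β (inl (Pi.mulSingle i b))).left ^ ℓ i = 1 := by
    have h3 : (β (inl (Pi.mulSingle i b))) ^ ℓ i = 1 := by
      rw [← map_pow, ← map_pow, ← Pi.mulSingle_pow, single_pow hℓ, Pi.mulSingle_one, map_one,
        map_one]
    rw [h1, ← map_pow] at h3
    exact inl_injective (by rw [h3, map_one])
  funext j
  by_cases hj : j = i
  · subst hj
    rw [Pi.mulSingle_eq_same]
    rfl
  · rw [Pi.mulSingle_eq_of_ne hj]
    funext x
    have h4 := congrFun (congrFun h2 j) x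
    rw [Pi.pow_apply, Pi.pow_apply] at h4
    haveI := Fact.mk (hℓ j)
    haveI := Fact.mk (hℓ i)
    set y := (β (inl (Pi.mulSingle i b))).left j x with hy
    have h5 : (ℓ i) • (Multiplicative.toAdd y) = 0 := h4
    rw [nsmul_eq_mul, mul_eq_zero] at h5
    rcases h5 with h5 | h5
    · exfalso
      rw [ZMod.natCast_eq_zero_iff] at h5
      exact hj (hinj ((Nat.prime_dvd_prime_iff_eq (hℓ j) (hℓ i)).mp h5))
    · exact h5

theorem B_mul (hℓ : ∀ i, (ℓ i).Prime) (hH : ∀ i, ¬ ℓ i ∣ Nat.card H) (hinj : Function.Injective ℓ)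
    (β : MulAut (Gam (H := H) Ω ℓ)) (i : ι) (b c : Ω i → Multiplicative (ZMod (ℓ i))) :
    B β i (b * c) = B β i b * B β i c := by
  have h := B_eq hℓ hH hinj β i (b * c)
  rw [Pi.mulSingle_mul, map_mul, map_mul, B_eq hℓ hH hinj, B_eq hℓ hH hinj, ← map_mul,
    ← Pi.mulSingle_mul] at h
  exact (Pi.mulSingle_injective i (inl_injective h)).symm

theorem B_inj (hℓ : ∀ i, (ℓ i).Prime) (hH : ∀ i, ¬ ℓ i ∣ Nat.card H) (hinj : Function.Injective ℓ)
    (β : MulAut (Gam (H := H) Ω ℓ)) (i : ι) : Function.Injective (B β i) := by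
  intro b c h
  have h1 := B_eq hℓ hH hinj β i b
  rw [h, ← B_eq hℓ hH hinj β i c] at h1
  exact Pi.mulSingle_injective i (inl_injective (β.injective h1))

theorem B_act (hℓ : ∀ i, (ℓ i).Prime) (hH : ∀ i, ¬ ℓ i ∣ Nat.card H) (hinj : Function.Injective ℓ)
    (β : MulAut (Gam (H := H) Ω ℓ)) (i : ι) (h : H) (b : Ω i → Multiplicative (ZMod (ℓ i)))
    (x : Ω i) : B β i (fun y => b (h⁻¹ • y)) x = B β i b ((bar β h)⁻¹ • x) := by
  have h1 : (Pi.mulSingle i (fun y => b (h⁻¹ • y)) : Mod Ω ℓ) = act Ω ℓ h (Pi.mulSingle i b) := by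
    funext j
    funext y
    rw [act_apply]
    by_cases hj : j = i
    · subst hj
      rw [Pi.mulSingle_eq_same, Pi.mulSingle_eq_same]
    · rw [Pi.mulSingle_eq_of_ne hj, Pi.mulSingle_eq_of_ne hj]
      rfl
  have h2 : β (inl (Pi.mulSingle i (fun y => b (h⁻¹ • y)))) =
      inl (act Ω ℓ (bar β h) (Pi.mulSingle i (B β i b))) := by
    rw [h1, inl_aut, map_mul, map_mul, B_eq hℓ hH hinj, map_inv]
    rw [map_inv]
    ext j y
    · simp only [mul_left, left_inl, mul_right, right_inl, mul_one, inv_left, Pi.mul_apply]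
      rw [bar_apply]
      have h3 : (act Ω ℓ (β (inr h)).right) ((act Ω ℓ (β (inr h)).right⁻¹) (β (inr h)).left⁻¹) =
          (β (inr h)).left⁻¹ := by
        rw [← MulAut.mul_apply, ← map_mul, mul_inv_cancel, map_one, MulAut.one_apply]
      rw [h3]
      simp only [Pi.inv_apply]
      rw [mul_comm, inv_mul_cancel_left]
    · simp
  rw [B_eq hℓ hH hinj] at h2
  have h3 := congrFun (congrFun (inl_injective h2) i) x
  rw [act_apply, Pi.mulSingle_eq_same, Pi.mulSingle_eq_same] at h3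
  exact h3

end comp

end

end Pool.Agent.Q5.NS
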